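import Pool.Agent.Helper66.E7.Defs

/-!
# Project 7E (MP_a499ba_nt): block B

The convolution of a system with a finite measure with density on the positive half line is a system.
-/

set_option autoImplicit false

open Complex Filter Topology MeasureTheory Set
open Pool.Agent.Helper57.Zeta
open Pool.Agent.Helper71.MR (ms mm rr kr Cin Qf cw Dk)
open Pool.Agent.Helper71.MA (Sys)

namespace Pool.Agent.E7.BlockB

variable {F : ℝ → ℝ} {A : ℝ} {c : ℂ → ℂ} {k : ℝ → ℝ} {B : ℝ}

/-- the kernel on the half line -/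
theorem int32 : Integrable (fun v : ℝ => (Ioi (0:ℝ)).indicator (fun v => Real.exp (-(3 / 4 * v))) v) := by
  rw [integrable_indicator_iff measurableSet_Ioi]
  have := integrableOn_exp_mul_Ioi (a := -(3 / 4 : ℝ)) (by norm_num) 0
  refine this.congr_fun (fun v _ => ?_) measurableSet_Ioi
  simp only [neg_mul]

/-- the integrand is bounded -/
theorem kF_bd (hS : Sys F A c) (hB : 0 ≤ B) (hk : ∀ v, 0 < v → |k v| ≤ B * Real.exp (-(3 / 2 * v))) (u v : ℝ) (hv : 0 < v) :
    |k v * F (u - v)| ≤ B * A * Real.exp (3 / 4 * |u|) * Real.exp (-(3 / 4 * v)) := by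
  have hA := hS.pos
  have h1 : |u - v| ≤ |u| + v := by
    have := abs_sub u v
    rwa [abs_of_pos hv] at this
  rw [abs_mul]
  calc |k v| * |F (u - v)| ≤ (B * Real.exp (-(3 / 2 * v))) * (A * Real.exp (3 / 4 * |u - v|)) :=
        mul_le_mul (hk v hv) (hS.bd _) (abs_nonneg _) (by positivity)
    _ = B * A * Real.exp (-(3 / 2 * v) + 3 / 4 * |u - v|) := by rw [Real.exp_add]; ring
    _ ≤ B * A * Real.exp (3 / 4 * |u| + -(3 / 4 * v)) := by
        apply mul_le_mul_of_nonneg_left _ (by positivity)
        apply Real.exp_le_exp.mpr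
        linarith
    _ = _ := by rw [Real.exp_add]; ring

theorem kF_int (hS : Sys F A c) (hB : 0 ≤ B) (hkm : Measurable k)
    (hk : ∀ v, 0 < v → |k v| ≤ B * Real.exp (-(3 / 2 * v))) (u : ℝ) :
    IntegrableOn (fun v => k v * F (u - v)) (Ioi 0) := by
  have h := (integrable_indicator_iff measurableSet_Ioi).1 int32
  refine Integrable.mono' (h.const_mul (B * A * Real.exp (3 / 4 * |u|))) ?_ ?_
  · have := hS.meas
    exact (hkm.mul (this.comp (measurable_const.sub measurable_id))).aestronglyMeasurable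
  · refine (ae_restrict_mem measurableSet_Ioi).mono fun v hv => ?_
    rw [Real.norm_eq_abs]
    exact kF_bd hS hB hk u v hv

/-- the convolution -/
noncomputable def G (F k : ℝ → ℝ) (u : ℝ) : ℝ := ∫ v in Ioi (0:ℝ), k v * F (u - v)

theorem G_bd (hS : Sys F A c) (hB : 0 ≤ B) (hk : ∀ v, 0 < v → |k v| ≤ B * Real.exp (-(3 / 2 * v))) (u : ℝ) :
    |G F k u| ≤ B * A * (4 / 3) * Real.exp (3 / 4 * |u|) := by
  have hA := hS.pos
  have h := (integrable_indicator_iff measurableSet_Ioi).1 int32
  have h2 : ∫ v in Ioi (0:ℝ), Real.exp (-(3 / 4 * v)) = 4 / 3 := by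
    have := integral_exp_mul_Ioi (a := -(3 / 4 : ℝ)) (by norm_num) 0
    rw [mul_zero, Real.exp_zero] at this
    have e : (fun v : ℝ => Real.exp (-(3 / 4 * v))) = fun v : ℝ => Real.exp (-(3 / 4) * v) := by
      funext v; congr 1; ring
    rw [e, this]
    norm_num
  unfold G
  rw [← Real.norm_eq_abs]
  refine (norm_integral_le_of_norm_le (h.const_mul (B * A * Real.exp (3 / 4 * |u|))) ?_).trans ?_
  · refine (ae_restrict_mem measurableSet_Ioi).mono fun v hv => ?_
    rw [Real.norm_eq_abs]
    exact kF_bd hS hB hk u v hv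
  · rw [integral_const_mul, h2]
    apply le_of_eq
    ring

theorem G_meas (hS : Sys F A c) (hkm : Measurable k) : Measurable (G F k) := by
  have h : StronglyMeasurable (fun p : ℝ × ℝ => k p.2 * F (p.1 - p.2)) := by
    have := hS.meas
    exact ((hkm.comp measurable_snd).mul (this.comp (measurable_fst.sub measurable_snd))).stronglyMeasurable
  exact (h.integral_prod_right (ν := volume.restrict (Ioi (0:ℝ)))).measurable

/-- Fubini -/
theorem fub (hS : Sys F A c) (hB : 0 ≤ B) (hkm : Measurable k) (hk : ∀ v, 0 < v → |k v| ≤ B * Real.exp (-(3 / 2 * v)))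
    {φ : ℝ → ℂ} {C : ℝ} (hφ : Dk φ C) (y : ℝ) :
    ∫ s : ℝ, (G F k (y + s) : ℂ) * φ s = ∫ v in Ioi (0:ℝ), (k v : ℂ) * ∫ s : ℝ, (F (y - v + s) : ℂ) * φ s := by
  have hC := hφ.nonneg
  have hA := hS.pos
  have hint : Integrable (Function.uncurry fun s v : ℝ => (k v : ℂ) * (F (y + s - v) : ℂ) * φ s)
      (volume.prod (volume.restrict (Ioi (0:ℝ)))) := by
    have h0 := (integrable_indicator_iff measurableSet_Ioi).1 int32
    have h1 : Integrable (fun p : ℝ × ℝ => (B * A * Real.exp (3 / 4 * |y|) * C * Real.exp (-(1 * |p.1|))) *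
        Real.exp (-(3 / 4 * p.2))) (volume.prod (volume.restrict (Ioi (0:ℝ)))) :=
      Integrable.mul_prod (f := fun s : ℝ => B * A * Real.exp (3 / 4 * |y|) * C * Real.exp (-(1 * |s|)))
        (g := fun u : ℝ => Real.exp (-(3 / 4 * u)))
        ((Pool.Agent.Helper71.MR.integrable_exp_abs one_pos).const_mul _) h0
    refine Integrable.mono' h1 ?_ ?_
    · apply Measurable.aestronglyMeasurable
      simp only [Function.uncurry_def]
      have := hS.meas
      have := hφ.meas
      fun_prop
    · have hae : ∀ᵐ p ∂((volume : Measure ℝ).prod ((volume : Measure ℝ).restrict (Ioi (0:ℝ)))), p.2 ∈ Ioi (0:ℝ) := by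
        have : (volume : Measure ℝ).prod (volume.restrict (Ioi (0:ℝ))) =
            ((volume : Measure ℝ).prod (volume : Measure ℝ)).restrict ((univ : Set ℝ) ×ˢ Ioi (0:ℝ)) := by
          rw [← Measure.prod_restrict, Measure.restrict_univ]
        rw [this]
        have hm : MeasurableSet ((univ : Set ℝ) ×ˢ (Ioi (0:ℝ))) := MeasurableSet.univ.prod measurableSet_Ioi
        refine (ae_restrict_mem hm).mono fun p hp => ?_
        exact hp.2
      filter_upwards [hae] with p hp
      simp only [Function.uncurry_def]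
      rw [norm_mul, ← Complex.ofReal_mul, Complex.norm_real, Real.norm_eq_abs]
      calc |k p.2 * F (y + p.1 - p.2)| * ‖φ p.1‖
          ≤ (B * A * Real.exp (3 / 4 * |y + p.1|) * Real.exp (-(3 / 4 * p.2))) * (C * Real.exp (-(2 * |p.1|))) :=
            mul_le_mul (kF_bd hS hB hk _ _ hp) (hφ.exp_bd _) (norm_nonneg _) (by positivity)
        _ = B * A * C * Real.exp (-(3 / 4 * p.2)) * Real.exp (3 / 4 * |y + p.1| + -(2 * |p.1|)) := by
            rw [Real.exp_add]; ring
        _ ≤ B * A * C * Real.exp (-(3 / 4 * p.2)) * Real.exp (3 / 4 * |y| + -(1 * |p.1|)) := by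
            apply mul_le_mul_of_nonneg_left _ (by positivity)
            apply Real.exp_le_exp.mpr
            have h3 := abs_add_le y p.1
            linarith [abs_nonneg p.1]
        _ = _ := by rw [Real.exp_add]; ring
  calc ∫ s : ℝ, (G F k (y + s) : ℂ) * φ s
      = ∫ s : ℝ, ∫ v in Ioi (0:ℝ), (k v : ℂ) * (F (y + s - v) : ℂ) * φ s := by
        apply integral_congr_ae
        filter_upwards with s
        unfold G
        rw [integral_mul_const, ← integral_complex_ofReal]
        congr 1
        apply integral_congr_ae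
        filter_upwards with v
        push_cast; rfl
    _ = ∫ v in Ioi (0:ℝ), ∫ s : ℝ, (k v : ℂ) * (F (y + s - v) : ℂ) * φ s := integral_integral_swap hint
    _ = _ := by
        apply integral_congr_ae
        filter_upwards with v
        rw [← integral_const_mul]
        apply integral_congr_ae
        filter_upwards with s
        rw [show y + s - v = y - v + s by ring]
        ring

theorem G_right (hS : Sys F A c) (hB : 0 ≤ B) (hkm : Measurable k) (hk : ∀ v, 0 < v → |k v| ≤ B * Real.exp (-(3 / 2 * v)))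
    (t : ℝ) : Tendsto (G F k) (𝓝[≥] t) (𝓝 (G F k t)) := by
  have hA := hS.pos
  have h0 := (integrable_indicator_iff measurableSet_Ioi).1 int32
  unfold G
  refine tendsto_integral_filter_of_dominated_convergence
    (fun v => B * A * Real.exp (3 / 4 * (|t| + 1)) * Real.exp (-(3 / 4 * v))) ?_ ?_ (h0.const_mul _) ?_
  · refine Eventually.of_forall fun u => ?_
    have := hS.meas
    exact (hkm.mul (this.comp (measurable_const.sub measurable_id))).aestronglyMeasurable
  · have hn : ∀ᶠ u in 𝓝[≥] t, |u| ≤ |t| + 1 := by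
      have h1 : ∀ᶠ u in 𝓝 t, |u| < |t| + 1 := continuous_abs.continuousAt.eventually_lt continuousAt_const (by linarith)
      exact (h1.filter_mono nhdsWithin_le_nhds).mono fun u hu => hu.le
    filter_upwards [hn] with u hu
    refine (ae_restrict_mem measurableSet_Ioi).mono fun v hv => ?_
    rw [Real.norm_eq_abs]
    refine (kF_bd hS hB hk u v hv).trans ?_
    apply mul_le_mul_of_nonneg_right _ (Real.exp_pos _).le
    apply mul_le_mul_of_nonneg_left _ (by positivity)
    apply Real.exp_le_exp.mpr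
    linarith
  · refine Eventually.of_forall fun v => ?_
    apply Tendsto.const_mul
    have h1 : Tendsto (fun u : ℝ => u - v) (𝓝[≥] t) (𝓝[≥] (t - v)) := by
      apply tendsto_nhdsWithin_of_tendsto_nhds_of_eventually_within
      · exact ((continuous_id.sub continuous_const).tendsto t).mono_left nhdsWithin_le_nhds
      · filter_upwards [self_mem_nhdsWithin] with u hu
        have : t ≤ u := hu
        change t - v ≤ u - v
        linarith
    exact (hS.right (t - v)).comp h1

/-- the combination of a system and its convolution is a system -/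
theorem sys_conv (hS : Sys F A c) (hB : 0 ≤ B) (hkm : Measurable k) (hk : ∀ v, 0 < v → |k v| ≤ B * Real.exp (-(3 / 2 * v)))
    (a : ℝ) : Sys (fun u => a * F u + G F k u) (|a| * A + B * A * (4 / 3) + 1)
      (fun w => c w * ((a : ℂ) + ∫ v in Ioi (0:ℝ), (k v : ℂ) * cexp (-(w * v)))) := by
  have hA := hS.pos
  have hGm := G_meas hS hkm
  have hGb := G_bd hS hB hk
  have hFi := fun {φ : ℝ → ℂ} {C : ℝ} (hφ : Dk φ C) (y : ℝ) =>
    Pool.Agent.Helper71.MR.ms_kernel_int hφ hS.meas hS.bd y
  have hGi := fun {φ : ℝ → ℂ} {C : ℝ} (hφ : Dk φ C) (y : ℝ) =>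
    Pool.Agent.Helper71.MR.ms_kernel_int hφ hGm hGb y
  have hsplit : ∀ {φ : ℝ → ℂ} {C : ℝ} (_ : Dk φ C) (y : ℝ),
      ∫ s : ℝ, ((a * F (y + s) + G F k (y + s) : ℝ) : ℂ) * φ s =
        (a : ℂ) * (∫ s : ℝ, (F (y + s) : ℂ) * φ s) + ∫ s : ℝ, (G F k (y + s) : ℂ) * φ s := by
    intro φ C hφ y
    rw [← integral_const_mul, ← integral_add ((hFi hφ y).const_mul _) (hGi hφ y)]
    apply integral_congr_ae
    filter_upwards with s
    push_cast
    ring
  refine ⟨(hS.meas.const_mul a).add hGm, by positivity, ?_, ?_, ?_, ?_⟩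
  · intro t
    have h1 := hS.bd t
    have h2 := hGb t
    have he := Real.exp_pos (3 / 4 * |t|)
    calc |a * F t + G F k t| ≤ |a * F t| + |G F k t| := abs_add_le _ _
      _ ≤ |a| * (A * Real.exp (3 / 4 * |t|)) + B * A * (4 / 3) * Real.exp (3 / 4 * |t|) := by
          rw [abs_mul]
          exact add_le_add (mul_le_mul_of_nonneg_left h1 (abs_nonneg _)) h2
      _ ≤ _ := by nlinarith
  · intro y
    obtain ⟨C, hC⟩ := Pool.Agent.Helper71.MR.dk_kr
    rw [hsplit hC y, hS.kr0 y, fub hS hB hkm hk hC y]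
    simp_rw [hS.kr0]
    simp
  · intro w hw t
    obtain ⟨C, hC⟩ := Pool.Agent.Helper71.MR.dk_Aw hw
    rw [hsplit hC t, hS.aw w hw t, fub hS hB hkm hk hC t]
    simp_rw [hS.aw w hw]
    have e : ∀ v : ℝ, (k v : ℂ) * (cexp (w * ((t - v : ℝ) : ℂ)) * c w) =
        (cexp (w * t) * c w) * ((k v : ℂ) * cexp (-(w * v))) := by
      intro v
      have : cexp (w * ((t - v : ℝ) : ℂ)) = cexp (w * t) * cexp (-(w * v)) := by
        rw [← Complex.exp_add]; congr 1; push_cast; ring
      rw [this]; ring
    simp_rw [e]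
    rw [integral_const_mul]
    ring
  · intro t
    exact ((hS.right t).const_mul a).add (G_right hS hB hkm hk t)

end Pool.Agent.E7.BlockB

namespace Pool.Agent.E7

theorem sys_ms : Sys ms Pool.Agent.Helper71.MR.A0 cw where
  meas := Pool.Agent.Helper71.MR.ms_meas
  pos := Pool.Agent.Helper71.MR.A0_pos
  bd := Pool.Agent.Helper71.MR.ms_bd
  kr0 := Pool.Agent.Helper71.MR.ms_kr
  aw := fun _ hw t => Pool.Agent.Helper71.MR.ms_Aw hw t
  right := Pool.Agent.Helper71.MR.ms_right

theorem stmtB : StmtB := by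
  intro T f
  have h := BlockB.sys_conv (k := fun v => 2 * Real.pi * T *
    (Real.exp (-(3 / 2 * v)) * Real.sin (2 * Real.pi * T * Real.exp (-v) + f))) (B := |2 * Real.pi * T|)
    sys_ms (abs_nonneg _) (by fun_prop) (by
      intro v _
      rw [abs_mul]
      apply mul_le_mul_of_nonneg_left _ (abs_nonneg _)
      rw [abs_mul, abs_of_pos (Real.exp_pos _)]
      have := Real.abs_sin_le_one (2 * Real.pi * T * Real.exp (-v) + f)
      have he := Real.exp_pos (-(3 / 2 * v))
      nlinarith) (Real.cos (2 * Real.pi * T + f))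
  obtain ⟨A, hA⟩ : ∃ A, Sys _ A _ := ⟨_, h⟩
  refine ⟨A, ?_⟩
  · convert hA using 1
    · funext u
      unfold FT BlockB.G
      congr 1
      rw [← integral_const_mul]
      apply integral_congr_ae
      filter_upwards with v
      ring
    · funext w
      unfold WT
      congr 2
      rw [← integral_const_mul]
      apply integral_congr_ae
      filter_upwards with v
      push_cast
      ring

end Pool.Agent.E7
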